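import Pool.Agent.AT5.Stmts2

/-!
# Squad AT5, row OMF: the subgroup of order `ℓ` of `⟨u⟩`
-/

set_option autoImplicit false

noncomputable section

namespace Pool.Agent.PP.T5.H13

open Pool.Agent.Helper51_AWC Pool.Agent.PP Pool.Agent.PP.KF Pool.Agent.PP.T5

theorem omf : OmfStmt := by
  intro ℓ hℓ G _ _ a u ha hu
  have hp : ℓ.Prime := hℓ.out
  have hdvd : ℓ ^ (a - 1) ∣ orderOf u := by
    rw [hu]
    exact pow_dvd_pow ℓ (by omega)
  have hw : orderOf (u ^ ℓ ^ (a - 1)) = ℓ := by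
    rw [orderOf_pow_of_dvd (pow_ne_zero _ hp.ne_zero) hdvd, hu, Nat.pow_div (by omega) hp.pos]
    have h1 : a - (a - 1) = 1 := by omega
    rw [h1, pow_one]
  have hcard : Nat.card (Om ℓ a u) = ℓ := by
    unfold Om
    rw [Nat.card_zpowers, hw]
  have hle : Om ℓ a u ≤ Subgroup.zpowers u := by
    unfold Om
    rw [Subgroup.zpowers_le]
    exact Subgroup.pow_mem _ (Subgroup.mem_zpowers u) _
  refine ⟨?_, hcard, ?_, hle, ?_, ?_, ?_, ?_⟩
  · refine IsPGroup.of_card (n := 1) ?_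
    rw [hcard, pow_one]
  · intro h
    rw [h, Subgroup.card_bot] at hcard
    exact hp.one_lt.ne hcard
  · intro c hc
    have hc' : Commute c u := Subgroup.mem_centralizer_singleton_iff.1 hc
    rw [Subgroup.mem_centralizer_iff]
    intro h hh
    obtain ⟨k, rfl⟩ := Subgroup.mem_zpowers_iff.1 (hle hh)
    exact (hc'.zpow_right k).symm.eq
  · intro g
    have hg : (MulAut.conj g).toMonoidHom u = g * u * g⁻¹ := rfl
    constructor
    · unfold conjS Om
      rw [MonoidHom.map_zpowers, map_pow, hg]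
    · rw [← hg, ← hu]
      exact orderOf_injective _ (MulAut.conj g).injective u
  · intro v hv hv1
    obtain ⟨j, hj⟩ := (Submonoid.mem_powers_iff _ _).1 (mem_powers_iff_mem_zpowers.2 hv)
    have hj0 : j ≠ 0 := by
      intro h0
      rw [h0, pow_zero] at hj
      exact hv1 hj.symm
    obtain ⟨c, m, hm, hjm⟩ := Nat.exists_eq_pow_mul_and_not_dvd hj0 ℓ hp.ne_one
    have hca : c < a := by
      by_contra h
      push Not at h
      apply hv1
      rw [← hj, hjm, ← orderOf_dvd_iff_pow_eq_one, hu]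
      exact (pow_dvd_pow ℓ h).trans (Dvd.intro _ rfl)
    have h1 : v ^ ℓ ^ (a - 1 - c) = (u ^ ℓ ^ (a - 1)) ^ m := by
      rw [← hj, ← pow_mul, hjm, ← pow_mul]
      congr 1
      have h2 : ℓ ^ (a - 1) = ℓ ^ c * ℓ ^ (a - 1 - c) := by
        rw [← pow_add]
        congr 1
        omega
      rw [h2]
      ring
    have hcop : Nat.Coprime m ℓ := ((Nat.Prime.coprime_iff_not_dvd hp).2 hm).symm
    obtain ⟨m', -, hm'⟩ := Nat.exists_mul_mod_eq_one_of_coprime hcop hp.one_lt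
    unfold Om
    rw [Subgroup.zpowers_le]
    have h3 : (v ^ ℓ ^ (a - 1 - c)) ^ m' = u ^ ℓ ^ (a - 1) := by
      rw [h1, ← pow_mul, ← pow_mod_orderOf, hw, hm', pow_one]
    rw [← h3]
    exact Subgroup.pow_mem _ (Subgroup.pow_mem _ (Subgroup.mem_zpowers v) _) _
  · intro H _ N φ huN hnot
    have h1 : φ ⟨u, huN⟩ ^ ℓ ^ (a - 1) ≠ 1 := by
      intro h
      apply hnot
      unfold Om
      rw [Subgroup.zpowers_le]
      refine ⟨⟨u, huN⟩ ^ ℓ ^ (a - 1), ?_, rfl⟩
      show φ (⟨u, huN⟩ ^ ℓ ^ (a - 1)) = 1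
      rw [map_pow, h]
    have h2 : φ ⟨u, huN⟩ ^ ℓ ^ (a - 1 + 1) = 1 := by
      rw [Nat.sub_add_cancel ha, ← map_pow]
      have h3 : (⟨u, huN⟩ : N) ^ ℓ ^ a = 1 := by
        apply Subtype.ext
        show u ^ ℓ ^ a = 1
        rw [← hu]
        exact pow_orderOf_eq_one u
      rw [h3, map_one]
    have h4 := orderOf_eq_prime_pow h1 h2
    rw [Nat.sub_add_cancel ha] at h4
    exact h4

end Pool.Agent.PP.T5.H13
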